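import Pool.Agent.Helper39.BS.Pow
import Pool.Agent.Helper80.UC.HE

/-!
# Classes of `x - c` in an extension of a number field and generalized Fermat curves
-/

set_option autoImplicit false

open NumberField IsDedekindDomain Polynomial

namespace Pool.Agent.Helper39.FC

/-- a number which has roots of all orders is one -/
lemma eq_one_of_pow {K : Type} [Field K] [NumberField K] {η : K} (h0 : η ≠ 0) {D : ℕ}
    (hD : 0 < D) (h : ∀ N : ℕ, 0 < N → D ∣ N → ∃ X : K, X ^ N = η) : η = 1 := by
  by_contra h1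
  have hinf := Pool.Agent.Helper39.BS.infinite_places K
  obtain ⟨v⟩ : Nonempty (HeightOneSpectrum (𝓞 K)) := inferInstance
  obtain ⟨n, hn, hno⟩ := Pool.Agent.Helper39.BS.not_pow v
    (η := algebraMap K (v.adicCompletion K) η) ((_root_.map_ne_zero _).2 h0)
    (fun h2 => h1 ((algebraMap K (v.adicCompletion K)).injective (h2.trans (map_one _).symm)))
  obtain ⟨X, hX⟩ := h (D * n) (Nat.mul_pos hD hn) (Dvd.intro _ rfl)
  apply hno (algebraMap K (v.adicCompletion K) (X ^ D))
  rw [← map_pow, ← pow_mul, hX]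

/-- the roots of unity of a number field -/
lemma exists_tors (K : Type) [Field K] [NumberField K] :
    ∃ m : ℕ, 0 < m ∧ ∀ (ζ : K) (n : ℕ), 0 < n → ζ ^ n = 1 → ζ ^ m = 1 := by
  refine ⟨NumberField.Units.torsionOrder K, NumberField.Units.torsionOrder_pos K,
    fun ζ n hn h => ?_⟩
  have hint : IsIntegral ℤ ζ := by
    refine IsIntegral.of_pow hn ?_
    rw [h]
    exact isIntegral_one
  obtain ⟨z, hz⟩ : ∃ z : 𝓞 K, (z : K) = ζ := ⟨⟨ζ, hint⟩, rfl⟩
  have hzn : z ^ n = 1 := by
    apply NumberField.RingOfIntegers.coe_injective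
    rw [map_pow, map_one]
    change (z : K) ^ n = 1
    rw [hz, h]
  set u : (𝓞 K)ˣ := Units.ofPowEqOne z n hzn hn.ne' with hu
  have hun : u ^ n = 1 := Units.pow_ofPowEqOne hzn hn.ne'
  have ht : u ∈ NumberField.Units.torsion K := by
    rw [NumberField.Units.torsion, CommGroup.mem_torsion]
    exact isOfFinOrder_iff_pow_eq_one.2 ⟨n, hn, hun⟩
  have h2 : (⟨u, ht⟩ : NumberField.Units.torsion K) ^ NumberField.Units.torsionOrder K = 1 := by
    rw [NumberField.Units.torsionOrder]
    exact pow_card_eq_one'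
  have h3 : (u : 𝓞 K) ^ NumberField.Units.torsionOrder K = 1 := by
    have := congrArg (fun w : NumberField.Units.torsion K => ((w : (𝓞 K)ˣ) : 𝓞 K)) h2
    simpa using this
  have h4 : (z : K) ^ NumberField.Units.torsionOrder K = 1 := by
    have h5 := congrArg (algebraMap (𝓞 K) K) h3
    rw [map_pow, map_one] at h5
    exact h5
  rwa [hz] at h4

/-- **The curve.** A nontrivial solution of `a i * X i ^ N + c i * W ^ N = a j * X j ^ N + c j * W ^ N`
for all `i`, `j`. -/
def Solution {k : Type} [Field k] {n : ℕ} (c : Fin n → k) (N : ℕ) (a : Fin n → k) (L : Type)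
    [Field L] [Algebra k L] : Prop :=
  ∃ (X : Fin n → L) (W : L), (W ≠ 0 ∨ ∃ i, X i ≠ 0) ∧
    ∀ i j, algebraMap k L (a i) * X i ^ N + algebraMap k L (c i) * W ^ N =
      algebraMap k L (a j) * X j ^ N + algebraMap k L (c j) * W ^ N

lemma Solution.map {k : Type} [Field k] {n : ℕ} {c : Fin n → k} {N : ℕ} {a : Fin n → k}
    {L L' : Type} [Field L] [Algebra k L] [Field L'] [Algebra k L'] [Algebra L L']
    [IsScalarTower k L L'] (h : Solution c N a L) : Solution c N a L' := by
  obtain ⟨X, W, h1, h2⟩ := h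
  refine ⟨fun i => algebraMap L L' (X i), algebraMap L L' W, ?_, fun i j => ?_⟩
  · rcases h1 with h1 | ⟨i, h1⟩
    · exact Or.inl ((_root_.map_ne_zero _).2 h1)
    · exact Or.inr ⟨i, (_root_.map_ne_zero _).2 h1⟩
  · have := congrArg (algebraMap L L') (h2 i j)
    simpa only [map_add, map_mul, map_pow, ← IsScalarTower.algebraMap_apply] using this

section core

variable {k : Type} [Field k] {L : Type} [Field L] [Algebra k L]

/-- comparison of two classes -/
lemma cmp (hL : ∀ z : L, IsAlgebraic k z → ∃ r : k, algebraMap k L r = z) {f : L} (hf : f ≠ 0)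
    {N q : ℕ} (hN : 0 < N) {a b : k} {u v : L} (h1 : f = algebraMap k L a * u ^ N)
    (h2 : f = algebraMap k L b * v ^ (N * q)) : ∃ r : k, r ≠ 0 ∧ a = b * r ^ N := by
  have hu : u ≠ 0 := by
    rintro rfl
    rw [zero_pow hN.ne', mul_zero] at h1
    exact hf h1
  have ha : algebraMap k L a ≠ 0 := by
    intro h
    rw [h, zero_mul] at h1
    exact hf h1
  have hb : algebraMap k L b ≠ 0 := by
    intro h
    rw [h, zero_mul] at h2
    exact hf h2
  have ha' : a ≠ 0 := by
    rintro rfl
    exact ha (map_zero _)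
  have hb' : b ≠ 0 := by
    rintro rfl
    exact hb (map_zero _)
  have h3 : (v ^ q / u) ^ N = algebraMap k L (a / b) := by
    rw [div_pow, ← pow_mul, mul_comm q N, map_div₀]
    have hun : u ^ N ≠ 0 := pow_ne_zero _ hu
    field_simp
    linear_combination h1 - h2
  have h4 : IsAlgebraic k (v ^ q / u) := by
    have : IsAlgebraic k ((v ^ q / u) ^ N) := h3 ▸ isAlgebraic_algebraMap _
    exact this.of_pow hN
  obtain ⟨r, hr⟩ := hL _ h4
  have h5 : r ^ N = a / b := by
    apply (algebraMap k L).injective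
    rw [map_pow, hr, h3]
  refine ⟨r, ?_, ?_⟩
  · rintro rfl
    rw [zero_pow hN.ne'] at h5
    exact div_ne_zero ha' hb' h5.symm
  · rw [h5]
    field_simp

end core

section galois

variable {k : Type} [Field k] [NumberField k] {k' : Type} [Field k'] [NumberField k'] [Algebra k k']

lemma descend_eq [IsGalois k k'] {y : k'} {c : k} (hy : y ≠ algebraMap k k' c) {D : ℕ}
    (hD : 0 < D) (h : ∀ N : ℕ, 0 < N → D ∣ N → ∃ (a : k) (X : k'),
      y - algebraMap k k' c = algebraMap k k' a * X ^ N) : ∃ y0 : k, algebraMap k k' y0 = y := by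
  have key : ∀ σ : k' ≃ₐ[k] k', σ y = y := by
    intro σ
    have h0 : y - algebraMap k k' c ≠ 0 := sub_ne_zero.2 hy
    have h0' : σ (y - algebraMap k k' c) ≠ 0 := (_root_.map_ne_zero _).2 h0
    have h1 : σ (y - algebraMap k k' c) / (y - algebraMap k k' c) = 1 := by
      refine eq_one_of_pow (div_ne_zero h0' h0) hD fun N hN hDN => ?_
      obtain ⟨a, X, hX⟩ := h N hN hDN
      have ha : algebraMap k k' a ≠ 0 := by
        intro h2
        rw [h2, zero_mul] at hX
        exact h0 hX
      have hX0 : X ^ N ≠ 0 := by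
        intro h2
        rw [h2, mul_zero] at hX
        exact h0 hX
      refine ⟨σ X / X, ?_⟩
      rw [hX, map_mul, σ.commutes, map_pow, div_pow]
      field_simp
    rw [div_eq_one_iff_eq h0, map_sub, σ.commutes, sub_left_inj] at h1
    exact h1
  exact (IsGalois.mem_range_algebraMap_iff_fixed y).2 key

lemma descend_pow [IsGalois k k'] {m : ℕ}
    (hm : ∀ (ζ : k') (n : ℕ), 0 < n → ζ ^ n = 1 → ζ ^ m = 1) {b : k} (hb : b ≠ 0) {X : k'} {N : ℕ}
    (hN : 0 < N) (hm0 : 0 < m) (h : X ^ (N * m) = algebraMap k k' b) : ∃ r : k, r ^ N = b := by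
  have hX : X ≠ 0 := by
    rintro rfl
    rw [zero_pow (Nat.mul_pos hN hm0).ne'] at h
    exact (_root_.map_ne_zero _).2 hb h.symm
  have key : ∀ σ : k' ≃ₐ[k] k', σ (X ^ m) = X ^ m := by
    intro σ
    have h1 : (σ X / X) ^ (N * m) = 1 := by
      rw [div_pow, ← map_pow, h, σ.commutes, div_self]
      exact (_root_.map_ne_zero _).2 hb
    have h2 := hm _ _ (Nat.mul_pos hN hm0) h1
    rw [div_pow, div_eq_one_iff_eq (pow_ne_zero _ hX)] at h2
    rw [map_pow, h2]
  obtain ⟨r, hr⟩ := (IsGalois.mem_range_algebraMap_iff_fixed (X ^ m)).2 key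
  refine ⟨r, (algebraMap k k').injective ?_⟩
  rw [map_pow, hr, ← pow_mul, mul_comm m N, h]

variable {L : Type} [Field L] [Algebra k L] {n : ℕ} (c : Fin n → k) (x : L)

/-- the solutions of a given type -/
def Typ (k' : Type) [Field k'] [Algebra k k'] (c : Fin n → k) (x : L) (N : ℕ) : Option k' → Prop
  | some y => ∀ (i : Fin n) (a : k) (u : L), x - algebraMap k L (c i) = algebraMap k L a * u ^ N →
      ∃ X : k', y - algebraMap k k' (c i) = algebraMap k k' a * X ^ N
  | none => ∀ (i j : Fin n) (a b : k) (u v : L),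
      x - algebraMap k L (c i) = algebraMap k L a * u ^ N →
      x - algebraMap k L (c j) = algebraMap k L b * v ^ N →
      ∃ X : k', algebraMap k k' a = algebraMap k k' b * X ^ N

variable {c x}

omit [NumberField k] [NumberField k'] in
lemma Typ.mono (hL : ∀ z : L, IsAlgebraic k z → ∃ r : k, algebraMap k L r = z)
    (hx : ∀ i, x - algebraMap k L (c i) ≠ 0)
    (hK : ∀ i, ∀ N : ℕ, 0 < N → ∃ (a : k) (u : L), x - algebraMap k L (c i) = algebraMap k L a * u ^ N)
    {N q : ℕ} (hN : 0 < N) (hq : 0 < q) {t : Option k'} (h : Typ k' c x (N * q) t) :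
    Typ k' c x N t := by
  match t with
  | some y =>
    intro i a u hau
    obtain ⟨a', u', hau'⟩ := hK i (N * q) (Nat.mul_pos hN hq)
    obtain ⟨X, hX⟩ := h i a' u' hau'
    obtain ⟨r, hr, har⟩ := cmp hL (hx i) hN hau hau'
    refine ⟨X ^ q / algebraMap k k' r, ?_⟩
    have hr' : algebraMap k k' r ≠ 0 := (_root_.map_ne_zero _).2 hr
    rw [hX, har, map_mul, map_pow, div_pow, ← pow_mul, mul_comm q N]
    field_simp
  | none =>
    intro i j a b u v hau hbv
    obtain ⟨a', u', hau'⟩ := hK i (N * q) (Nat.mul_pos hN hq)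
    obtain ⟨b', v', hbv'⟩ := hK j (N * q) (Nat.mul_pos hN hq)
    obtain ⟨X, hX⟩ := h i j a' b' u' v' hau' hbv'
    obtain ⟨r, hr, har⟩ := cmp hL (hx i) hN hau hau'
    obtain ⟨s, hs, hbs⟩ := cmp hL (hx j) hN hbv hbv'
    have hs' : algebraMap k k' s ≠ 0 := (_root_.map_ne_zero _).2 hs
    refine ⟨algebraMap k k' r * X ^ q / algebraMap k k' s, ?_⟩
    rw [har, hbs, map_mul, map_mul, hX, map_pow, map_pow, div_pow, mul_pow, ← pow_mul, mul_comm q N]
    field_simp

theorem core_gal [IsGalois k k'] (hn : 2 ≤ n) (hc : Function.Injective c)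
    (hL : ∀ z : L, IsAlgebraic k z → ∃ r : k, algebraMap k L r = z)
    (hx : ∀ i, x - algebraMap k L (c i) ≠ 0)
    (hK : ∀ i, ∀ N : ℕ, 0 < N → ∃ (a : k) (u : L), x - algebraMap k L (c i) = algebraMap k L a * u ^ N)
    {D : ℕ} (hD : 0 < D)
    (H : ∀ N : ℕ, 0 < N → D ∣ N → ∀ (a : Fin n → k) (u : Fin n → L), (∀ i, a i ≠ 0) →
      (∀ i, x - algebraMap k L (c i) = algebraMap k L (a i) * u i ^ N) → Solution c N a k') :
    (∃ y : k, ∀ i, c i ≠ y → ∀ N : ℕ, 0 < N → ∃ w : L,
      x - algebraMap k L (c i) = algebraMap k L (y - c i) * w ^ N) ∨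
    (∀ i j, ∀ N : ℕ, 0 < N → ∃ w : L,
      x - algebraMap k L (c i) = (x - algebraMap k L (c j)) * w ^ N) := by
  classical
  have hne : ∀ {i : Fin n} {N : ℕ} {a : k} {u : L},
      x - algebraMap k L (c i) = algebraMap k L a * u ^ N → a ≠ 0 ∧ u ^ N ≠ 0 := by
    intro i N a u h
    refine ⟨?_, fun h1 => ?_⟩
    · rintro rfl
      rw [map_zero, zero_mul] at h
      exact hx i h
    · rw [h1, mul_zero] at h
      exact hx i h
  -- the finite set
  set N0 : ℕ := 6 * D with hN0
  have hN0pos : 0 < N0 := by omega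
  choose a0 u0 h0 using fun i => hK i N0 hN0pos
  set i0 : Fin n := ⟨0, by omega⟩ with hi0
  set i1 : Fin n := ⟨1, by omega⟩ with hi1
  have hi01 : c i0 ≠ c i1 := fun h => by
    have := hc h
    rw [hi0, hi1, Fin.mk.injEq] at this
    omega
  have ha0 : ∀ i, algebraMap k k' (a0 i) ≠ 0 := fun i => (_root_.map_ne_zero _).2 (hne (h0 i)).1
  set Y0 : Set k' := {y | ∀ i, ∃ X : k', y - algebraMap k k' (c i) = algebraMap k k' (a0 i) * X ^ N0}
    with hY0
  have hfin : Y0.Finite := by
    set d : k' := algebraMap k k' (c i1) - algebraMap k k' (c i0) with hd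
    have hd0 : d ≠ 0 := by
      rw [hd, ← map_sub]
      exact (_root_.map_ne_zero _).2 (sub_ne_zero.2 (Ne.symm hi01))
    set α : k' := algebraMap k k' (a0 i0) with hα
    set β : k' := algebraMap k k' (a0 i1) with hβ
    have hfin1 : {X : k' | ∃ Y, Y ^ 2 =
        ((C (β * α) : k'[X]) * (Polynomial.X ^ N0 - C (d / α))).eval X}.Finite := by
      have hu : IsUnit (C (β * α) : k'[X]) := isUnit_C.2 (mul_ne_zero (ha0 _) (ha0 _)).isUnit
      refine Pool.Agent.Helper80.UC.hyperelliptic _ ?_ ?_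
      · have h1 : (Polynomial.X ^ N0 - C (d / α) : k'[X]).Separable := by
          apply separable_X_pow_sub_C _ _ (div_ne_zero hd0 (ha0 _))
          exact_mod_cast hN0pos.ne'
        unfold Separable
        rw [derivative_C_mul]
        exact (isCoprime_mul_unit_left hu _ _).2 h1
      · rw [natDegree_C_mul (mul_ne_zero (ha0 _) (ha0 _)), natDegree_X_pow_sub_C]
        omega
    refine (hfin1.image fun X => α * X ^ N0 + algebraMap k k' (c i0)).subset ?_
    intro y hy
    obtain ⟨X, hX⟩ := hy i0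
    obtain ⟨X1, hX1⟩ := hy i1
    refine ⟨X, ⟨β * X1 ^ (3 * D), ?_⟩, ?_⟩
    · simp only [eval_mul, eval_C, eval_sub, eval_pow, eval_X]
      have h1 : (β * X1 ^ (3 * D)) ^ 2 = β * (β * X1 ^ N0) := by
        rw [mul_pow, ← pow_mul, hN0]
        have : 3 * D * 2 = 6 * D := by ring
        rw [this]
        ring
      rw [h1, ← hX1]
      have h2 : y = α * X ^ N0 + algebraMap k k' (c i0) := by
        rw [← hX]
        ring
      have hα0 : α ≠ 0 := ha0 i0
      rw [h2, hd]
      field_simp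
      ring
    · simp only
      rw [← hX]
      ring
  -- types
  have htyp : ∀ N : ℕ, 0 < N → N0 ∣ N → ∃ t : Option k', (t = none ∨ ∃ y ∈ Y0, t = some y) ∧
      Typ k' c x N t := by
    intro N hN hN0N
    choose a u hau using fun i => hK i N hN
    have ha : ∀ i, a i ≠ 0 := fun i => (hne (hau i)).1
    have ha' : ∀ i, algebraMap k k' (a i) ≠ 0 := fun i => (_root_.map_ne_zero _).2 (ha i)
    obtain ⟨X, W, hXW, h1⟩ := H N hN ((Dvd.intro_left 6 rfl).trans hN0N) a u ha hau
    by_cases hW : W = 0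
    · subst hW
      refine ⟨none, Or.inl rfl, ?_⟩
      intro i j b b' v v' hb hb'
      have hXi : ∀ i, X i ≠ 0 := by
        rcases hXW with h | ⟨j, hj⟩
        · exact absurd rfl h
        · intro i hi
          have h2 := h1 i j
          rw [hi, zero_pow hN.ne', mul_zero, mul_zero, zero_add, mul_zero, add_zero] at h2
          exact mul_ne_zero (ha' j) (pow_ne_zero _ hj) h2.symm
      obtain ⟨r, hr, hbr⟩ := cmp (q := 1) hL (hx i) hN hb (by rw [mul_one]; exact hau i)
      obtain ⟨s, hs, hbs⟩ := cmp (q := 1) hL (hx j) hN hb' (by rw [mul_one]; exact hau j)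
      have hs' : algebraMap k k' s ≠ 0 := (_root_.map_ne_zero _).2 hs
      have h2 := h1 i j
      rw [zero_pow hN.ne', mul_zero, mul_zero, add_zero, add_zero] at h2
      refine ⟨algebraMap k k' r * X j / (algebraMap k k' s * X i), ?_⟩
      have h3 := hXi i
      rw [hbr, hbs, map_mul, map_mul, map_pow, map_pow, div_pow, mul_pow, mul_pow]
      field_simp
      linear_combination algebraMap k k' r ^ N * h2
    · set y : k' := (algebraMap k k' (a i0) * X i0 ^ N + algebraMap k k' (c i0) * W ^ N) / W ^ N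
        with hy
      have hWN : W ^ N ≠ 0 := pow_ne_zero _ hW
      have hyi : ∀ i, y - algebraMap k k' (c i) = algebraMap k k' (a i) * (X i / W) ^ N := by
        intro i
        rw [hy, h1 i0 i, div_pow]
        field_simp
        ring
      have hT : Typ k' c x N (some y) := by
        intro i b v hb
        obtain ⟨r, hr, hbr⟩ := cmp (q := 1) hL (hx i) hN hb (by rw [mul_one]; exact hau i)
        have hr' : algebraMap k k' r ≠ 0 := (_root_.map_ne_zero _).2 hr
        refine ⟨X i / W / algebraMap k k' r, ?_⟩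
        rw [hyi, hbr, map_mul, map_pow, div_pow (X i / W)]
        field_simp
      refine ⟨some y, Or.inr ⟨y, fun i => ?_, rfl⟩, hT⟩
      obtain ⟨q, rfl⟩ := id hN0N
      exact Typ.mono hL hx hK hN0pos (Nat.pos_of_mul_pos_left hN) hT i (a0 i) (u0 i) (h0 i)
  -- one type holds for all exponents
  have hone : ∃ t : Option k', ∀ N : ℕ, 0 < N → Typ k' c x N t := by
    by_contra hcon
    push Not at hcon
    choose M hM hMt using hcon
    set T : Finset (Option k') := insert none (hfin.toFinset.image some) with hT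
    set N : ℕ := N0 * ∏ t ∈ T, M t with hN
    have hNpos : 0 < N := Nat.mul_pos hN0pos (Finset.prod_pos fun t _ => hM t)
    obtain ⟨t, ht, htN⟩ := htyp N hNpos (Dvd.intro _ rfl)
    have htT : t ∈ T := by
      rw [hT, Finset.mem_insert, Finset.mem_image]
      rcases ht with h | ⟨y, hy, h⟩
      · exact Or.inl h
      · exact Or.inr ⟨y, (Set.Finite.mem_toFinset _).2 hy, h.symm⟩
    have hdvd : M t ∣ N := (Finset.dvd_prod_of_mem M htT).trans (Dvd.intro_left _ rfl)
    obtain ⟨q, hq⟩ := hdvd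
    rw [hq] at htN hNpos
    exact hMt t (Typ.mono hL hx hK (hM t) (Nat.pos_of_mul_pos_left hNpos) htN)
  obtain ⟨m, hm0, hm⟩ := exists_tors k'
  obtain ⟨t, ht⟩ := hone
  match t, ht with
  | some y, ht =>
    left
    -- the point is rational
    obtain ⟨y0, rfl⟩ : ∃ y0 : k, algebraMap k k' y0 = y := by
      by_cases h : y = algebraMap k k' (c i0)
      · exact ⟨_, h.symm⟩
      · refine descend_eq h one_pos fun N hN _ => ?_
        obtain ⟨a, u, hau⟩ := hK i0 N hN
        obtain ⟨X, hX⟩ := ht N hN i0 a u hau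
        exact ⟨a, X, hX⟩
    refine ⟨y0, fun i hi N hN => ?_⟩
    obtain ⟨a, u, hau⟩ := hK i (N * m) (Nat.mul_pos hN hm0)
    obtain ⟨X, hX⟩ := ht (N * m) (Nat.mul_pos hN hm0) i a u hau
    obtain ⟨ha, hu⟩ := hne hau
    have ha' : algebraMap k k' a ≠ 0 := (_root_.map_ne_zero _).2 ha
    have hyi : y0 - c i ≠ 0 := sub_ne_zero.2 (Ne.symm hi)
    obtain ⟨r, hr⟩ := descend_pow hm (b := (y0 - c i) / a) (div_ne_zero hyi ha) (X := X) hN hm0 (by
      rw [map_div₀, map_sub, hX]
      field_simp)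
    have haL : algebraMap k L a ≠ 0 := (_root_.map_ne_zero _).2 ha
    have hr0 : r ≠ 0 := by
      rintro rfl
      rw [zero_pow hN.ne'] at hr
      exact div_ne_zero hyi ha hr.symm
    have hrL : algebraMap k L r ≠ 0 := (_root_.map_ne_zero _).2 hr0
    have hyr : y0 - c i = a * r ^ N := by
      rw [hr]
      field_simp
    refine ⟨u ^ m / algebraMap k L r, ?_⟩
    rw [hau, hyr, map_mul, map_pow, div_pow, ← pow_mul, mul_comm m N]
    field_simp
  | none, ht =>
    right
    intro i j N hN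
    obtain ⟨a, u, hau⟩ := hK i (N * m) (Nat.mul_pos hN hm0)
    obtain ⟨b, v, hbv⟩ := hK j (N * m) (Nat.mul_pos hN hm0)
    obtain ⟨X, hX⟩ := ht (N * m) (Nat.mul_pos hN hm0) i j a b u v hau hbv
    obtain ⟨ha, hu⟩ := hne hau
    obtain ⟨hb, hv⟩ := hne hbv
    have hb' : algebraMap k k' b ≠ 0 := (_root_.map_ne_zero _).2 hb
    obtain ⟨r, hr⟩ := descend_pow hm (b := a / b) (div_ne_zero ha hb) (X := X) hN hm0 (by
      rw [map_div₀, hX]
      field_simp)
    have har : a = b * r ^ N := by
      rw [hr]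
      field_simp
    refine ⟨algebraMap k L r * u ^ m / v ^ m, ?_⟩
    have hvm : v ^ (N * m) ≠ 0 := hv
    have hvm' : v ≠ 0 := by
      rintro rfl
      rw [zero_pow (Nat.mul_pos hN hm0).ne'] at hvm
      exact hvm rfl
    rw [hau, hbv, har, map_mul, map_pow, div_pow, mul_pow, ← pow_mul, ← pow_mul, mul_comm m N]
    field_simp

end galois

end Pool.Agent.Helper39.FC
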