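import Pool.Agent.Helper39.FC.Core

/-!
# Points over a finite extension
-/

set_option autoImplicit false

open NumberField IsDedekindDomain Polynomial

namespace Pool.Agent.Helper39.FC

/-- a finite extension of number fields lies in a Galois extension -/
lemma exists_galois (k k' : Type) [Field k] [NumberField k] [Field k'] [NumberField k']
    [Algebra k k'] : ∃ (K : Type) (_ : Field K) (_ : NumberField K) (_ : Algebra k K)
      (_ : Algebra k' K), IsScalarTower k k' K ∧ IsGalois k K := by
  have hfd : FiniteDimensional k k' := inferInstance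
  let K := IntermediateField.normalClosure k k' (AlgebraicClosure k')
  have h1 : FiniteDimensional k K := inferInstance
  have h2 : NumberField K := NumberField.of_module_finite k K
  have h3 : Normal k K := inferInstance
  exact ⟨K, inferInstance, h2, inferInstance, inferInstance, inferInstance, ⟨⟩⟩

theorem core {k : Type} [Field k] [NumberField k] {k' : Type} [Field k'] [NumberField k']
    [Algebra k k'] {L : Type} [Field L] [Algebra k L] {n : ℕ} {c : Fin n → k} {x : L}
    (hn : 2 ≤ n) (hc : Function.Injective c)
    (hL : ∀ z : L, IsAlgebraic k z → ∃ r : k, algebraMap k L r = z)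
    (hx : ∀ i, x - algebraMap k L (c i) ≠ 0)
    (hK : ∀ i, ∀ N : ℕ, 0 < N → ∃ (a : k) (u : L), x - algebraMap k L (c i) = algebraMap k L a * u ^ N)
    {D : ℕ} (hD : 0 < D)
    (H : ∀ N : ℕ, 0 < N → D ∣ N → ∀ (a : Fin n → k) (u : Fin n → L), (∀ i, a i ≠ 0) →
      (∀ i, x - algebraMap k L (c i) = algebraMap k L (a i) * u i ^ N) → Solution c N a k') :
    (∃ y : k, ∀ i, c i ≠ y → ∀ N : ℕ, 0 < N → ∃ w : L,
      x - algebraMap k L (c i) = algebraMap k L (y - c i) * w ^ N) ∨
    (∀ i j, ∀ N : ℕ, 0 < N → ∃ w : L,
      x - algebraMap k L (c i) = (x - algebraMap k L (c j)) * w ^ N) := by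
  obtain ⟨K, _, _, _, _, _, _⟩ := exists_galois k k'
  exact core_gal (k' := K) hn hc hL hx hK hD fun N hN hDN a u ha hau =>
    (H N hN hDN a u ha hau).map

end Pool.Agent.Helper39.FC
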