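import Pool.Agent.Helper39.BS.Res
import Pool.Graph.R_seed8.W620.SC.Obstruction

/-!
# Sections of fundamental groups of curves: fixed fields, Kummer classes, change of curve
-/

set_option autoImplicit false

open Polynomial

namespace Pool.Agent.Helper39.FC

open Pool.Agent.W620.SC

section inertia

variable {F Ω : Type} [Field F] [Field Ω] [Algebra F Ω]

open scoped Pointwise in
lemma mem_inertia {W : ValuationSubring Ω} {σ : Ω ≃ₐ[F] Ω}
    (h : ∀ x ∈ W, σ x ∈ W ∧ σ x - x ∈ W.nonunits) : σ ∈ inertia F Ω W := by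
  have hback : ∀ y : Ω, σ y ∈ W → y ∈ W := by
    intro y hy
    by_contra hyW
    have hy0 : y ≠ 0 := by
      rintro rfl
      exact hyW (zero_mem _)
    have h1 : y⁻¹ ∈ W := (W.mem_or_inv_mem y).resolve_left hyW
    obtain ⟨h2, h3⟩ := h _ h1
    have h4 : y⁻¹ ∈ W.nonunits := (W.mem_nonunits_iff_or).2 (Or.inr (by rwa [inv_inv]))
    have h5 : σ y⁻¹ ∈ W.nonunits := by
      rw [ValuationSubring.mem_nonunits_iff] at h3 h4 ⊢
      have e : σ y⁻¹ = (σ y⁻¹ - y⁻¹) + y⁻¹ := by ring
      rw [e]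
      exact lt_of_le_of_lt (W.valuation.map_add _ _) (max_lt h3 h4)
    rw [map_inv₀] at h5
    rcases (W.mem_nonunits_iff_or).1 h5 with h6 | h6
    · exact hy0 ((map_eq_zero_iff _ σ.injective).1 (inv_eq_zero.1 h6))
    · rw [inv_inv] at h6
      exact h6 hy
  have hdec : σ ∈ W.decompositionSubgroup F := by
    rw [ValuationSubring.decompositionSubgroup, MulAction.mem_stabilizer_iff]
    ext y
    rw [ValuationSubring.mem_pointwise_smul_iff_inv_smul_mem]
    constructor
    · intro hy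
      have h1 := (h _ hy).1
      change σ (σ⁻¹ • y) ∈ W at h1
      have e : σ (σ⁻¹ • y) = y := by
        change σ (σ.symm y) = y
        exact σ.apply_symm_apply y
      rwa [e] at h1
    · intro hy
      apply hback
      have e : σ (σ⁻¹ • y) = y := by
        change σ (σ.symm y) = y
        exact σ.apply_symm_apply y
      rwa [e]
  refine ⟨⟨σ, hdec⟩, ?_, rfl⟩
  change (⟨σ, hdec⟩ : W.decompositionSubgroup F) ∈ W.inertiaSubgroup F
  rw [ValuationSubring.inertiaSubgroup, MonoidHom.mem_ker]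
  apply RingEquiv.ext
  intro r
  obtain ⟨a, rfl⟩ := IsLocalRing.residue_surjective r
  change IsLocalRing.residue W ((⟨σ, hdec⟩ : W.decompositionSubgroup F) • a) =
      IsLocalRing.residue W a
  rw [← sub_eq_zero, ← map_sub, IsLocalRing.residue_eq_zero_iff]
  obtain ⟨h1, h2⟩ := h a a.2
  obtain ⟨hm, h3⟩ := (ValuationSubring.mem_nonunits_iff_exists_mem_maximalIdeal).1 h2
  have e : (⟨σ, hdec⟩ : W.decompositionSubgroup F) • a - a = ⟨σ a - a, hm⟩ := Subtype.ext rfl
  rw [e]
  exact h3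

end inertia

section fixed

variable {k F Ω : Type} [Field k] [Field F] [Field Ω] [Algebra k F] [Algebra F Ω] [Algebra k Ω]
  [IsScalarTower k F Ω] {U : Set (ValuationSubring F)}

/-- the elements fixed by a section -/
def fixG (S : GSection k F Ω U) : IntermediateField k Ω where
  carrier := {z | ∃ hz : z ∈ unramified F Ω U, ∀ g, S.toHom g ⟨z, hz⟩ = ⟨z, hz⟩}
  mul_mem' := by
    rintro x y ⟨hx, hx'⟩ ⟨hy, hy'⟩
    refine ⟨mul_mem hx hy, fun g => ?_⟩
    have e : (⟨x * y, mul_mem hx hy⟩ : unramified F Ω U) = ⟨x, hx⟩ * ⟨y, hy⟩ := rfl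
    rw [e, map_mul, hx' g, hy' g]
  one_mem' := ⟨one_mem _, fun g => map_one _⟩
  add_mem' := by
    rintro x y ⟨hx, hx'⟩ ⟨hy, hy'⟩
    refine ⟨add_mem hx hy, fun g => ?_⟩
    have e : (⟨x + y, add_mem hx hy⟩ : unramified F Ω U) = ⟨x, hx⟩ + ⟨y, hy⟩ := rfl
    rw [e, map_add, hx' g, hy' g]
  zero_mem' := ⟨zero_mem _, fun g => map_zero _⟩
  algebraMap_mem' := by
    intro c
    rw [IsScalarTower.algebraMap_apply k F Ω]
    exact ⟨algebraMap_mem _ _, fun g => (S.toHom g).commutes _⟩
  inv_mem' := by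
    rintro x ⟨hx, hx'⟩
    refine ⟨inv_mem hx, fun g => ?_⟩
    have e : (⟨x⁻¹, inv_mem hx⟩ : unramified F Ω U) = ⟨x, hx⟩⁻¹ := rfl
    rw [e, map_inv₀, hx' g]

lemma mem_fixG {S : GSection k F Ω U} {z : Ω} :
    z ∈ fixG S ↔ ∃ hz : z ∈ unramified F Ω U, ∀ g, S.toHom g ⟨z, hz⟩ = ⟨z, hz⟩ := Iff.rfl

lemma base_mem (S : GSection k F Ω U) (f : F) : algebraMap F Ω f ∈ fixG S :=
  ⟨algebraMap_mem _ _, fun g => (S.toHom g).commutes _⟩

variable [CharZero k] [IsAlgClosed Ω]

lemma gal_alg : IsGalois k (algebraicClosure k Ω) := by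
  have h : IsAlgClosure k (algebraicClosure k Ω) := inferInstance
  have : Normal k (algebraicClosure k Ω) := IsAlgClosure.normal k _
  exact ⟨⟩

/-- the fixed constants are rational -/
lemma fixG_alg (S : GSection k F Ω U) {z : Ω}
    (hz : z ∈ fixG S) (halg : IsAlgebraic k z) : ∃ r : k, algebraMap k Ω r = z := by
  have hG : IsGalois k (algebraicClosure k Ω) := gal_alg
  obtain ⟨hz1, hz2⟩ := hz
  set y : algebraicClosure k Ω := ⟨z, mem_algebraicClosure_iff.2 halg⟩ with hy
  have h1 : ∀ σ : algebraicClosure k Ω ≃ₐ[k] algebraicClosure k Ω, σ y = y := by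
    intro σ
    have h2 := S.compat σ y ⟨z, hz1⟩ rfl
    rw [hz2 σ] at h2
    exact Subtype.ext h2.symm
  have h3 : y ∈ (⊥ : IntermediateField k (algebraicClosure k Ω)) :=
    mem_of_fixed _ fun σ _ => h1 σ
  obtain ⟨r, hr⟩ := IntermediateField.mem_bot.1 h3
  exact ⟨r, congrArg Subtype.val hr⟩

omit [Algebra k F] [IsScalarTower k F Ω] [CharZero k] [IsAlgClosed Ω] in
lemma fix_nhds' [Algebra.IsAlgebraic F Ω] (S : GSection k F Ω U) (z : unramified F Ω U) :
    {g | S.toHom g z = z} ∈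
      nhds (1 : algebraicClosure k Ω ≃ₐ[k] algebraicClosure k Ω) := by
  have h2 := S.cont.continuousAt (x := 1)
  have h3 : {g : unramified F Ω U ≃ₐ[F] unramified F Ω U | g z = z} ∈ nhds (S.toHom 1) := by
    rw [map_one]
    exact Pool.Agent.TH954.fix_nhds z
  exact h2 h3

/-- **Kummer classes at a section.** -/
theorem kummerG [Algebra.IsAlgebraic F Ω] (hU : ∀ O ∈ U, ∀ c : k, algebraMap k F c ∈ O)
    (S : GSection k F Ω U) {f w : Ω}
    (hf : f ∈ fixG S) (hf0 : f ≠ 0) (hw : w ∈ unramified F Ω U) {N : ℕ} (hN : 0 < N)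
    (hwf : w ^ N = f) : ∃ (a : k) (u : Ω), a ≠ 0 ∧ u ∈ fixG S ∧ f = algebraMap k Ω a * u ^ N := by
  classical
  have hac : IsAlgClosure k (algebraicClosure k Ω) := inferInstance
  have hA : IsAlgClosed (algebraicClosure k Ω) := hac.1
  have hG : IsGalois k (algebraicClosure k Ω) := gal_alg
  have hw0 : w ≠ 0 := by
    rintro rfl
    rw [zero_pow hN.ne'] at hwf
    exact hf0 hwf.symm
  set s : (algebraicClosure k Ω ≃ₐ[k] algebraicClosure k Ω) →* RingAut (unramified F Ω U) :=
    (toRingAutHom F (unramified F Ω U)).comp S.toHom with hs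
  have hsapp : ∀ σ x, s σ x = S.toHom σ x := fun σ x => rfl
  have hι : ∀ σ x, s σ (constHom hU x) = constHom hU (σ x) := fun σ x =>
    Subtype.ext (S.compat σ x (constHom hU x) rfl)
  set w' : unramified F Ω U := ⟨w, hw⟩ with hw'
  have hw'0 : w' ≠ 0 := fun h => hw0 (congrArg Subtype.val h)
  obtain ⟨hf1, hf2⟩ := hf
  obtain ⟨E, hE1, hE2⟩ := (krullTopology_mem_nhds_one_iff _ _ _).1 (fix_nhds' S w')
  obtain ⟨β, hβ0, hβ⟩ := exists_fixed_multiple s (constHom hU) hι ⊤ w' hw'0 (by
    intro σ _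
    have h1 : (s σ w' / w') ^ N = constHom hU 1 := by
      have h2 : w' ^ N = ⟨f, hf1⟩ := Subtype.ext hwf
      rw [div_pow, ← map_pow, h2, hsapp, hf2 σ, div_self, map_one]
      exact fun h => hf0 (congrArg Subtype.val h)
    obtain ⟨ζ, hζ⟩ := root_mem (constHom hU) hN h1
    exact ⟨ζ, by rw [hζ, div_mul_cancel₀ _ hw'0]⟩) E (fun σ hσ => hE2 hσ)
  have hu : ((constHom hU β * w' : unramified F Ω U) : Ω) ∈ fixG S :=
    ⟨(constHom hU β * w' : unramified F Ω U).2, fun g => hβ g (Subgroup.mem_top g)⟩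
  have hβΩ : ((constHom hU β : unramified F Ω U) : Ω) = (β : Ω) := rfl
  have hu' : (β : Ω) * w ∈ fixG S := hu
  have hβ0' : (β : Ω) ≠ 0 := fun h => hβ0 (Subtype.ext h)
  -- the constant
  have hbN : (β : Ω) ^ N ∈ fixG S := by
    have h1 : (β : Ω) ^ N = ((β : Ω) * w) ^ N / f := by
      rw [mul_pow, hwf, mul_div_cancel_right₀ _ hf0]
    rw [h1]
    exact div_mem (pow_mem hu' N) ⟨hf1, hf2⟩
  have halg : IsAlgebraic k ((β : Ω) ^ N) :=
    (mem_algebraicClosure_iff.1 β.2).pow N
  obtain ⟨r, hr⟩ := fixG_alg S hbN halg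
  have hr0 : r ≠ 0 := by
    rintro rfl
    rw [map_zero] at hr
    exact pow_ne_zero N hβ0' hr.symm
  refine ⟨r⁻¹, (β : Ω) * w, inv_ne_zero hr0, hu', ?_⟩
  rw [mul_pow, hwf, ← hr, map_inv₀]
  have : algebraMap k Ω r ≠ 0 := (_root_.map_ne_zero _).2 hr0
  field_simp

end fixed

section change

variable {k F Ω : Type} [Field k] [Field F] [Field Ω] [Algebra k F] [Algebra F Ω] [Algebra k Ω]
  [IsScalarTower k F Ω] {U : Set (ValuationSubring F)}

/-- the automorphisms over the base preserve the maximal unramified extension -/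
lemma unramified_map {τ : Ω ≃ₐ[F] Ω} {z : Ω} (hz : z ∈ unramified F Ω U) :
    τ z ∈ unramified F Ω U := by
  rw [mem_unramified] at hz ⊢
  intro W hW σ hσ
  set W' : ValuationSubring Ω := W.comap (τ : Ω →+* Ω) with hW'
  have hmem : ∀ x : Ω, x ∈ W' ↔ τ x ∈ W := fun x => Iff.rfl
  have hnon : ∀ x : Ω, x ∈ W'.nonunits ↔ τ x ∈ W.nonunits := by
    intro x
    rw [ValuationSubring.mem_nonunits_iff_or, ValuationSubring.mem_nonunits_iff_or, hmem,
      map_inv₀, map_eq_zero_iff _ τ.injective]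
  have hin : τ⁻¹ * σ * τ ∈ inertia F Ω W' := by
    apply mem_inertia
    intro x hx
    have h1 := inertia_spec hσ ((hmem x).1 hx)
    have e : τ ((τ⁻¹ * σ * τ) x) = σ (τ x) := by
      change τ (τ.symm (σ (τ x))) = _
      exact τ.apply_symm_apply _
    refine ⟨(hmem _).2 (by rw [e]; exact h1.1), (hnon _).2 ?_⟩
    rw [map_sub, e]
    exact h1.2
  have hW1 : W'.comap (algebraMap F Ω) = W.comap (algebraMap F Ω) := by
    ext f
    rw [ValuationSubring.mem_comap, hmem, τ.commutes, ValuationSubring.mem_comap]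
  have h2 := hz W' (hW1 ▸ hW) _ hin
  have h3 : τ ((τ⁻¹ * σ * τ) z) = τ z := by rw [h2]
  have e : τ ((τ⁻¹ * σ * τ) z) = σ (τ z) := by
    change τ (τ.symm (σ (τ z))) = _
    exact τ.apply_symm_apply _
  rw [e] at h3
  exact h3

variable (S : GSection k F Ω U) (E : IntermediateField k Ω) (hE : E ≤ fixG S)
  {U1 : Set (ValuationSubring E)}
  (hU1 : ∀ W : ValuationSubring Ω, W.comap (algebraMap F Ω) ∈ U → W.comap (algebraMap E Ω) ∈ U1)

include hE hU1

lemma unramified_le {z : Ω} (hz : z ∈ unramified E Ω U1) : z ∈ unramified F Ω U := by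
  rw [mem_unramified] at hz ⊢
  intro W hW σ hσ
  have hfix : ∀ u : E, σ (u : Ω) = u := by
    intro u
    obtain ⟨h1, -⟩ := hE u.2
    exact mem_unramified.1 h1 W hW σ hσ
  set σ1 : Ω ≃ₐ[E] Ω := AlgEquiv.ofRingEquiv (f := (σ : Ω ≃+* Ω)) hfix with hσ1
  exact hz W (hU1 W hW) σ1 (mem_inertia fun x hx => inertia_spec hσ hx)

variable [IsAlgClosure F Ω]

lemma section_map {z : Ω} (hz : z ∈ unramified E Ω U1)
    (g : algebraicClosure k Ω ≃ₐ[k] algebraicClosure k Ω) :
    (S.toHom g ⟨z, unramified_le S E hE hU1 hz⟩ : Ω) ∈ unramified E Ω U1 := by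
  have : Normal F Ω := IsAlgClosure.normal F Ω
  set τ : Ω ≃ₐ[F] Ω := (S.toHom g).liftNormal Ω with hτ
  have h1 : ∀ x : unramified F Ω U, τ (x : Ω) = S.toHom g x := fun x =>
    (S.toHom g).liftNormal_commutes Ω x
  have hfix : ∀ u : E, τ (u : Ω) = u := by
    intro u
    obtain ⟨h2, h3⟩ := hE u.2
    exact (h1 ⟨u, h2⟩).trans (congrArg Subtype.val (h3 g))
  set τ1 : Ω ≃ₐ[E] Ω := AlgEquiv.ofRingEquiv (f := (τ : Ω ≃+* Ω)) hfix with hτ1
  rw [← h1]
  exact unramified_map (τ := τ1) hz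

/-- **The section of another curve.** -/
noncomputable def changeCurve : GSection k E Ω U1 where
  toHom :=
    { toFun := fun g =>
        { toFun := fun z => ⟨S.toHom g ⟨z, unramified_le S E hE hU1 z.2⟩,
            section_map S E hE hU1 z.2 g⟩
          invFun := fun z => ⟨S.toHom g⁻¹ ⟨z, unramified_le S E hE hU1 z.2⟩,
            section_map S E hE hU1 z.2 g⁻¹⟩
          left_inv := fun z => by
            apply Subtype.ext
            change (S.toHom g⁻¹ (S.toHom g ⟨z, unramified_le S E hE hU1 z.2⟩) : Ω) = z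
            rw [← AlgEquiv.mul_apply, ← map_mul, inv_mul_cancel, map_one]
            rfl
          right_inv := fun z => by
            apply Subtype.ext
            change (S.toHom g (S.toHom g⁻¹ ⟨z, unramified_le S E hE hU1 z.2⟩) : Ω) = z
            rw [← AlgEquiv.mul_apply, ← map_mul, mul_inv_cancel, map_one]
            rfl
          map_mul' := fun z y => by
            have h := congrArg (fun t : unramified F Ω U => (t : Ω)) (map_mul (S.toHom g)
              ⟨z, unramified_le S E hE hU1 z.2⟩ ⟨y, unramified_le S E hE hU1 y.2⟩)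
            exact Subtype.ext h
          map_add' := fun z y => by
            have h := congrArg (fun t : unramified F Ω U => (t : Ω)) (map_add (S.toHom g)
              ⟨z, unramified_le S E hE hU1 z.2⟩ ⟨y, unramified_le S E hE hU1 y.2⟩)
            exact Subtype.ext h
          commutes' := fun u => by
            obtain ⟨h2, h3⟩ := hE u.2
            have h := congrArg (fun t : unramified F Ω U => (t : Ω)) (h3 g)
            exact Subtype.ext h }
      map_one' := by
        ext z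
        change ((S.toHom 1 ⟨z, unramified_le S E hE hU1 z.2⟩ : unramified F Ω U) : Ω) = _
        rw [map_one]
        rfl
      map_mul' := fun g h => by
        ext z
        change ((S.toHom (g * h) ⟨z, unramified_le S E hE hU1 z.2⟩ : unramified F Ω U) : Ω) = _
        rw [map_mul]
        rfl }
  cont := by
    have hΩ2 : Algebra.IsAlgebraic F Ω := IsAlgClosure.isAlgebraic
    refine Pool.Agent.Helper39.BS.cont_of _ fun z => ?_
    refine Filter.mem_of_superset
      (fix_nhds' S ⟨z, unramified_le S E hE hU1 z.2⟩) fun g hg => ?_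
    have h := congrArg (fun t : unramified F Ω U => (t : Ω)) hg
    exact Subtype.ext h
  compat := fun g x y hxy =>
    S.compat g x ⟨y, unramified_le S E hE hU1 y.2⟩ hxy

lemma changeCurve_apply (g : algebraicClosure k Ω ≃ₐ[k] algebraicClosure k Ω)
    (z : unramified E Ω U1) : (((changeCurve S E hE hU1).toHom g z : unramified E Ω U1) : Ω) =
      S.toHom g ⟨z, unramified_le S E hE hU1 z.2⟩ := rfl

end change

end Pool.Agent.Helper39.FC
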